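import Pool.Agent.H45.Chi.Cert
import Pool.Agent.H45.Chi.Often

set_option autoImplicit false

namespace Pool.Agent.Results.MP_4e279d_co.ChromaticLower

open Filter Pool.Agent.H43.L1

/-- **Exponential lower bounds for the chromatic number of `ℓ₁^d`.** For all sufficiently large
`d` the points of `ℝ^d` cannot be coloured with `⌊1.388^d⌋` colours so that any two points at
`ℓ₁`-distance `1` have different colours; for infinitely many `d` not even `⌊1.407^d⌋` colours
suffice. Colour classes are arbitrary sets. -/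
theorem result :
    (∀ᶠ d : ℕ in atTop, ¬ (unitGraph d).Colorable ⌊(1.388 : ℝ) ^ d⌋₊) ∧
    ∃ᶠ d : ℕ in atTop, ¬ (unitGraph d).Colorable ⌊(1.407 : ℝ) ^ d⌋₊ :=
  ⟨Pool.Agent.H45.Chi.lower_all, Pool.Agent.H45.Chi.lower_often⟩

end Pool.Agent.Results.MP_4e279d_co.ChromaticLower
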