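import Pool.Agent.H43.Chr.Main

set_option autoImplicit false

namespace Pool.Agent.Results.MP_4e279d_co.ChromaticUpper

open Filter Pool.Agent.H43.L1

/-- **`χ(ℓ₁^d) ≤ 2.8^d` for all large `d`.** For all sufficiently large `d`, the points of `ℝ^d`
can be coloured with `⌊2.8^d⌋` colours so that any two points at `ℓ₁`-distance `1` have
different colours. -/
theorem result : ∀ᶠ d : ℕ in atTop, (unitGraph d).Colorable ⌊(2.8 : ℝ) ^ d⌋₊ :=
  Pool.Agent.H43.ChrU.colorable_eventually

end Pool.Agent.Results.MP_4e279d_co.ChromaticUpper
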