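import Pool.Agent.H43.L1.Proof

set_option autoImplicit false

namespace Pool.Agent.Results.MP_4e279d_co.CliqueBound

open Pool.Agent.H43.L1

/-- **Explicit upper bounds for the clique number of the unit-distance graph of `ℓ₁^d`.**
If `n` points of `ℝ^d` are pairwise at `ℓ₁`-distance `1`, then `n - 1 ≤ d τ(n)` with
`τ(n) ≤ 1 + (1/2) log n`; and there are no such `12, 15, 18, 21, 25, 28` points in dimension
`5, 6, 7, 8, 9, 10`. -/
theorem result :
    (∀ (d n : ℕ) (s : Finset (Fin d → ℝ)), (unitGraph d).IsNClique n s →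
      (n : ℝ) - 1 ≤ d * tau n) ∧
    (∀ n : ℕ, 1 ≤ n → tau n ≤ 1 + Real.log n / 2) ∧
    (unitGraph 5).CliqueFree 12 ∧ (unitGraph 6).CliqueFree 15 ∧
    (unitGraph 7).CliqueFree 18 ∧ (unitGraph 8).CliqueFree 21 ∧
    (unitGraph 9).CliqueFree 25 ∧ (unitGraph 10).CliqueFree 28 :=
  ⟨bound.1, bound.2, free_5_12, free_6_15, free_7_18, free_8_21, free_9_25, free_10_28⟩

end Pool.Agent.Results.MP_4e279d_co.CliqueBound
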