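import Pool.Agent.H43.L1.Clique
import Pool.Agent.H43.L1.Cert11
import Pool.Agent.H43.L1.Cert14
import Pool.Agent.H43.L1.Cert17
import Pool.Agent.H43.L1.Cert20

set_option autoImplicit false

namespace Pool.Agent.Results.MP_4e279d_co.KusnerFive

open Pool.Agent.H43.L1

/-- **The clique number of the unit-distance graph of `ℓ₁⁵` is `10`.** There are no `3d - 4`
points of `ℝ^d` with pairwise `ℓ₁`-distances `1` for `d = 5, 6, 7, 8`, so the clique number is at
most `3d - 5` in these dimensions. For `d = 5` this is the value `2d` of the conjecture of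
Kusner. -/
theorem result :
    (unitGraph 5).cliqueNum = 10 ∧
    ∀ d : ℕ, 5 ≤ d → d ≤ 8 → (unitGraph d).CliqueFree (3 * d - 4) := by
  have h5 : (unitGraph 5).CliqueFree 11 := cliqueFree_of_not C11.no_equilateral
  refine ⟨cliqueNum_eq (d := 5) h5, fun d h1 h2 => ?_⟩
  interval_cases d
  · exact h5
  · exact cliqueFree_of_not C14.no_equilateral
  · exact cliqueFree_of_not C17.no_equilateral
  · exact cliqueFree_of_not C20.no_equilateral

end Pool.Agent.Results.MP_4e279d_co.KusnerFive
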